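import Pool.Agent.H37.CNU.Stmts
import Mathlib.RingTheory.Henselian

set_option autoImplicit false

namespace Pool.CND

namespace UNLaux

open PowerSeries

variable {k : Type} [Field k]

theorem smod_iff (n : ℕ) (x y : PowerSeries k) :
    x ≡ y [SMOD (Ideal.span {(X : PowerSeries k)}) ^ n • (⊤ : Submodule (PowerSeries k) (PowerSeries k))] ↔
      ∀ m < n, coeff m x = coeff m y := by
  rw [SModEq.sub_mem, smul_eq_mul, Ideal.mul_top, Ideal.span_singleton_pow,
    Ideal.mem_span_singleton, X_pow_dvd_iff]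
  constructor
  · intro h m hm
    have := h m hm
    rw [map_sub, sub_eq_zero] at this
    exact this
  · intro h m hm
    rw [map_sub, h m hm, sub_self]

theorem adic : IsAdicComplete (Ideal.span {(X : PowerSeries k)}) (PowerSeries k) where
  haus' := by
    intro x hx
    ext n
    have := (smod_iff (n + 1) x 0).1 (hx (n + 1)) n (Nat.lt_succ_self n)
    rw [this]
  prec' := by
    intro f hf
    refine ⟨PowerSeries.mk (fun n => coeff n (f (n + 1))), ?_⟩
    intro n
    rw [smod_iff]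
    intro m hm
    rw [coeff_mk]
    exact ((smod_iff (m + 1) _ _).1 (hf (show m + 1 ≤ n from hm)) m (Nat.lt_succ_self m)).symm

/-- `n`-th roots of power series with constant term `1` -/
theorem root (n : ℕ) (hn : (n : k) ≠ 0) (F : PowerSeries k) (hF : constantCoeff F = 1) :
    ∃ g : PowerSeries k, constantCoeff g = 1 ∧ g ^ n = F := by
  have := adic (k := k)
  have hH : HenselianRing (PowerSeries k) (Ideal.span {(X : PowerSeries k)}) := inferInstance
  have hn0 : n ≠ 0 := by
    rintro rfl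
    exact hn (by simp)
  obtain ⟨a, ha, ha1⟩ := hH.is_henselian (Polynomial.X ^ n - Polynomial.C F)
    (Polynomial.monic_X_pow_sub_C F hn0) 1 (by
      rw [Ideal.mem_span_singleton, X_dvd_iff]
      simp [hF]) (by
      apply IsUnit.map
      rw [Polynomial.derivative_sub, Polynomial.derivative_X_pow, Polynomial.derivative_C, sub_zero]
      simp only [Polynomial.eval_mul, Polynomial.eval_C, Polynomial.eval_pow, Polynomial.eval_X,
        one_pow, mul_one]
      rw [PowerSeries.isUnit_iff_constantCoeff]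
      simpa using hn)
  refine ⟨a, ?_, ?_⟩
  · rw [Ideal.mem_span_singleton, X_dvd_iff, map_sub, map_one, sub_eq_zero] at ha1
    exact ha1
  · have h : Polynomial.eval a (Polynomial.X ^ n - Polynomial.C F) = 0 := ha
    simpa [sub_eq_zero] using h

/-- the power series as a Laurent series -/
noncomputable abbrev L (g : PowerSeries k) : LaurentSeries k := HahnSeries.ofPowerSeries ℤ k g

/-- powers of the variable -/
noncomputable abbrev T (j : ℤ) : LaurentSeries k := HahnSeries.single j (1 : k)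

theorem T_mul (i j : ℤ) : (T i : LaurentSeries k) * T j = T (i + j) := by
  rw [HahnSeries.single_mul_single, one_mul]

theorem T_pow (i : ℤ) (n : ℕ) : (T i : LaurentSeries k) ^ n = T (n * i) := by
  rw [HahnSeries.single_pow, one_pow, nsmul_eq_mul]

theorem L_X_pow (n : ℕ) : L ((X : PowerSeries k) ^ n) = T (n : ℤ) := by
  rw [L, HahnSeries.ofPowerSeries_X_pow]

theorem L_coeff_zero (g : PowerSeries k) : (L g).coeff 0 = constantCoeff g := by
  have := HahnSeries.ofPowerSeries_apply_coeff (Γ := ℤ) g 0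
  simpa using this

theorem L_ne (g : PowerSeries k) (hg : constantCoeff g = 1) : L g ≠ 0 := by
  intro h
  have := L_coeff_zero g
  rw [h, hg] at this
  simp at this

theorem L_order_le (g : PowerSeries k) (hg : constantCoeff g ≠ 0) : (L g).order ≤ 0 := by
  apply HahnSeries.order_le_of_coeff_ne_zero
  rw [L_coeff_zero]
  exact hg

theorem L_order (g : PowerSeries k) (hg : constantCoeff g = 1) : (L g).order = 0 := by
  have hu : g * g⁻¹ = 1 := PowerSeries.mul_inv_cancel g (by rw [hg]; exact one_ne_zero)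
  have hc : constantCoeff g⁻¹ = 1 := by
    rw [PowerSeries.constantCoeff_inv, hg, inv_one]
  have h1 := L_order_le g (by rw [hg]; exact one_ne_zero)
  have h2 := L_order_le g⁻¹ (by rw [hc]; exact one_ne_zero)
  have h3 : (L g * L g⁻¹).order = 0 := by
    rw [L, L, ← map_mul, hu, map_one, HahnSeries.order_one]
  rw [HahnSeries.order_mul (L_ne g hg) (L_ne _ hc)] at h3
  omega

theorem T_ne (j : ℤ) : (T j : LaurentSeries k) ≠ 0 := by
  intro h
  exact one_ne_zero (HahnSeries.single_eq_zero_iff.1 h)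

theorem order_T_mul (j : ℤ) (g : PowerSeries k) (hg : constantCoeff g = 1) :
    (T j * L g).order = j := by
  rw [HahnSeries.order_mul (T_ne j) (L_ne g hg), L_order g hg, HahnSeries.order_single one_ne_zero,
    add_zero]

end UNLaux

open UNLaux in
theorem unl_thm : S_UNL := by
  intro p k _ f q e hp hchar hf hq he
  have hpp := hp.two_le
  have hp0 : (p : k) = 0 := CharP.cast_eq_zero k p
  have hq2 : 2 ≤ q := by
    rw [hq]
    exact le_trans hpp (Nat.le_self_pow (by omega) p)
  have hq0 : ((q : ℕ) : k) = 0 := by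
    rw [hq]
    push_cast
    rw [hp0, zero_pow (by omega)]
  have hqk : ((q + 1 : ℕ) : k) ≠ 0 := by
    push_cast
    rw [hq0, zero_add]
    exact one_ne_zero
  have hek : ((e : ℕ) : k) ≠ 0 := by
    have h1 : ((e + q : ℕ) : k) = ((q ^ 2 + 1 : ℕ) : k) := by rw [he]
    push_cast at h1
    rw [hq0, add_zero, zero_pow (by omega), zero_add] at h1
    rw [h1]
    exact one_ne_zero
  have hQ4 : 4 ≤ q ^ 2 := by nlinarith
  have he0 : e ≠ 0 := by
    rintro rfl
    nlinarith
  have hA : (q ^ 2 - 1) * e ≠ 0 := by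
    apply Nat.mul_ne_zero <;> omega
  have hB : (q ^ 2 - 1) * (q * e) ≠ 0 := by
    apply Nat.mul_ne_zero
    · omega
    · apply Nat.mul_ne_zero <;> omega
  obtain ⟨u, hu, hup⟩ := root (q + 1) hqk
    (1 + (PowerSeries.X : PowerSeries k) ^ ((q ^ 2 - 1) * e)) (by
      rw [map_add, map_one, map_pow, PowerSeries.constantCoeff_X, zero_pow hA, add_zero])
  obtain ⟨v, hv, hvp⟩ := root e hek
    (u ^ (q ^ 2) - (PowerSeries.X : PowerSeries k) ^ ((q ^ 2 - 1) * (q * e)) * u) (by
      rw [map_sub, map_mul, map_pow, map_pow, hu, one_pow, PowerSeries.constantCoeff_X,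
        zero_pow hB, zero_mul, sub_zero])
  have hup' : L u ^ (q + 1) = 1 + T (((q ^ 2 - 1) * e : ℕ) : ℤ) := by
    rw [← L_X_pow, L, L, ← map_pow, hup, map_add, map_one]
  have hvp' : L v ^ e = L u ^ (q ^ 2) - T (((q ^ 2 - 1) * (q * e) : ℕ) : ℤ) * L u := by
    rw [← L_X_pow, L, L, L, ← map_pow, hvp, map_sub, map_mul, map_pow]
  have cq : ((q ^ 2 - 1 : ℕ) : ℤ) = (q : ℤ) ^ 2 - 1 := by
    rw [Nat.cast_sub (by omega)]; push_cast; ring
  refine ⟨T (-((q * e : ℕ) : ℤ)) * L u, T (-(((q + 1) * e : ℕ) : ℤ)),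
    T (-((q ^ 3 : ℕ) : ℤ)) * L v, mul_ne_zero (T_ne _) (L_ne u hu), T_ne _,
    mul_ne_zero (T_ne _) (L_ne v hv), ?_, ?_, ?_, ?_, ?_⟩
  · rw [order_T_mul _ u hu]
  · rw [HahnSeries.order_single one_ne_zero]
  · rw [order_T_mul _ v hv]
  · have e1 : (q : ℤ) * (-(((q + 1) * e : ℕ) : ℤ)) = ((q + 1 : ℕ) : ℤ) * (-((q * e : ℕ) : ℤ)) := by
      push_cast
      ring
    have e2 : ((q + 1 : ℕ) : ℤ) * (-((q * e : ℕ) : ℤ)) + (((q ^ 2 - 1) * e : ℕ) : ℤ) =
        -(((q + 1) * e : ℕ) : ℤ) := by
      rw [Nat.cast_mul (q ^ 2 - 1), cq]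
      push_cast
      ring
    rw [mul_pow, T_pow, T_pow, hup', mul_add, mul_one, T_mul, e1, e2]
  · have e1 : ((q ^ 2 : ℕ) : ℤ) * (-((q * e : ℕ) : ℤ)) = (e : ℤ) * (-((q ^ 3 : ℕ) : ℤ)) := by
      push_cast
      ring
    have e2 : (e : ℤ) * (-((q ^ 3 : ℕ) : ℤ)) + (((q ^ 2 - 1) * (q * e) : ℕ) : ℤ) =
        -((q * e : ℕ) : ℤ) := by
      rw [Nat.cast_mul (q ^ 2 - 1), cq]
      push_cast
      ring
    rw [mul_pow, mul_pow, T_pow, T_pow, hvp', mul_sub, ← mul_assoc (T _) (T _) (L u), T_mul,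
      e1, e2]

end Pool.CND
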